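import Pool.Agent.Q103.PF.Stmts

set_option autoImplicit false

namespace Pool.Agent.Q103.PF.TaskL
open Pool.Agent.Q103.PF

noncomputable section

abbrev V := ℤ →₀ ℤ

def S (i : ℤ) : V →+ ℤ := Finsupp.liftAddHom fun j => if j ≤ i then AddMonoidHom.id ℤ else 0

theorem S_single (i j b : ℤ) : S i (Finsupp.single j b) = if j ≤ i then b else 0 := by
  unfold S
  rw [Finsupp.liftAddHom_apply_single]
  split_ifs <;> rfl

def bt : V →+ (V →+ ℤ) := Finsupp.liftAddHom fun i => zmultiplesHom (V →+ ℤ) (S i)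

theorem bt_single (i a : ℤ) (y : V) : bt (Finsupp.single i a) y = a * S i y := by
  unfold bt
  rw [Finsupp.liftAddHom_apply_single, zmultiplesHom_apply]
  rw [AddMonoidHom.smul_apply, smul_eq_mul]

def sh (n : ℤ) : V →+ V := Finsupp.mapDomain.addMonoidHom (fun i => i + n)

theorem sh_single (n i a : ℤ) : sh n (Finsupp.single i a) = Finsupp.single (i + n) a := by
  unfold sh
  exact Finsupp.mapDomain_single

theorem sh_zero (x : V) : sh 0 x = x := by
  induction x using Finsupp.induction_linear with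
  | zero => rw [map_zero]
  | add f g hf hg => rw [map_add, hf, hg]
  | single i a => rw [sh_single, add_zero]

theorem sh_sh (n k : ℤ) (x : V) : sh n (sh k x) = sh (n + k) x := by
  induction x using Finsupp.induction_linear with
  | zero => rw [map_zero, map_zero, map_zero]
  | add f g hf hg => rw [map_add, map_add, map_add, hf, hg]
  | single i a => rw [sh_single, sh_single, sh_single]; congr 1; ring

theorem S_sh (i n : ℤ) (y : V) : S (i + n) (sh n y) = S i y := by
  induction y using Finsupp.induction_linear with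
  | zero => rw [map_zero, map_zero, map_zero]
  | add f g hf hg => rw [map_add, map_add, map_add, hf, hg]
  | single j b => rw [sh_single, S_single, S_single]; simp

theorem bt_sh (n : ℤ) (x y : V) : bt (sh n x) (sh n y) = bt x y := by
  induction x using Finsupp.induction_linear with
  | zero => rw [map_zero, map_zero]; rfl
  | add f g hf hg => rw [map_add, map_add, map_add, AddMonoidHom.add_apply, AddMonoidHom.add_apply,
      hf, hg]
  | single j b => rw [sh_single, bt_single, bt_single, S_sh]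

@[ext] structure LL (m : ℕ) where
  x : V
  y : V
  c : ℤ
  n : ℤ

variable {m : ℕ}

instance : Mul (LL m) := ⟨fun a b => ⟨a.x + sh a.n b.x, a.y + sh a.n b.y,
  a.c + b.c + m * bt a.x (sh a.n b.y), a.n + b.n⟩⟩
instance : One (LL m) := ⟨⟨0, 0, 0, 0⟩⟩
instance : Inv (LL m) := ⟨fun a => ⟨- sh (-a.n) a.x, - sh (-a.n) a.y, -a.c + m * bt a.x a.y, -a.n⟩⟩

theorem mul_x (a b : LL m) : (a * b).x = a.x + sh a.n b.x := rfl
theorem mul_y (a b : LL m) : (a * b).y = a.y + sh a.n b.y := rfl
theorem mul_c (a b : LL m) : (a * b).c = a.c + b.c + m * bt a.x (sh a.n b.y) := rfl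
theorem mul_n (a b : LL m) : (a * b).n = a.n + b.n := rfl
theorem one_x : (1 : LL m).x = 0 := rfl
theorem one_y : (1 : LL m).y = 0 := rfl
theorem one_c : (1 : LL m).c = 0 := rfl
theorem one_n : (1 : LL m).n = 0 := rfl

instance : Group (LL m) := Group.ofLeftAxioms
  (fun a b c => by
    apply LL.ext
    · simp only [mul_x, mul_n, map_add, sh_sh, add_assoc]
    · simp only [mul_y, mul_n, map_add, sh_sh, add_assoc]
    · simp only [mul_x, mul_y, mul_c, mul_n, map_add, AddMonoidHom.add_apply, sh_sh]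
      have := bt_sh a.n b.x (sh b.n c.y)
      rw [sh_sh] at this
      rw [this]
      ring
    · simp only [mul_n, add_assoc])
  (fun a => by
    apply LL.ext
    · rw [mul_x, one_x, one_n, sh_zero, zero_add]
    · rw [mul_y, one_y, one_n, sh_zero, zero_add]
    · rw [mul_c, one_x, one_c, map_zero, AddMonoidHom.zero_apply]; ring
    · rw [mul_n, one_n, zero_add])
  (fun a => by
    apply LL.ext
    · show - sh (-a.n) a.x + sh (-a.n) a.x = 0
      exact neg_add_cancel _
    · show - sh (-a.n) a.y + sh (-a.n) a.y = 0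
      exact neg_add_cancel _
    · show -a.c + m * bt a.x a.y + a.c + m * bt (- sh (-a.n) a.x) (sh (-a.n) a.y) = 0
      rw [map_neg, AddMonoidHom.neg_apply, bt_sh]
      ring
    · show -a.n + a.n = 0
      exact neg_add_cancel _)

def pn : LL m →* Multiplicative ℤ where
  toFun a := Multiplicative.ofAdd a.n
  map_one' := rfl
  map_mul' _ _ := rfl

def pc : LL m →* Multiplicative (ZMod m) where
  toFun a := Multiplicative.ofAdd (a.c : ZMod m)
  map_one' := by rw [one_c, Int.cast_zero, ofAdd_zero]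
  map_mul' a b := by
    rw [mul_c, ← ofAdd_add]
    congr 1
    push_cast
    rw [ZMod.natCast_self, zero_mul, add_zero]

def W (k : ℤ) : LL m := ⟨0, 0, k, 0⟩
def T (k : ℤ) : LL m := ⟨0, 0, 0, k⟩
def X (x : V) : LL m := ⟨x, 0, 0, 0⟩
def Y (y : V) : LL m := ⟨0, y, 0, 0⟩

theorem W_add (a b : ℤ) : (W (a + b) : LL m) = W a * W b := by
  apply LL.ext <;> simp [W, mul_x, mul_y, mul_c, mul_n]
theorem T_add (a b : ℤ) : (T (a + b) : LL m) = T a * T b := by
  apply LL.ext <;> simp [T, mul_x, mul_y, mul_c, mul_n]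
theorem X_add (a b : V) : (X (a + b) : LL m) = X a * X b := by
  apply LL.ext <;> simp [X, mul_x, mul_y, mul_c, mul_n, sh_zero]
theorem Y_add (a b : V) : (Y (a + b) : LL m) = Y a * Y b := by
  apply LL.ext <;> simp [Y, mul_x, mul_y, mul_c, mul_n, sh_zero]

def Wh : Multiplicative ℤ →* LL m where
  toFun k := W k.toAdd
  map_one' := rfl
  map_mul' a b := W_add _ _
def Th : Multiplicative ℤ →* LL m where
  toFun k := T k.toAdd
  map_one' := rfl
  map_mul' a b := T_add _ _
def Xh : Multiplicative V →* LL m where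
  toFun k := X k.toAdd
  map_one' := rfl
  map_mul' a b := X_add _ _
def Yh : Multiplicative V →* LL m where
  toFun k := Y k.toAdd
  map_one' := rfl
  map_mul' a b := Y_add _ _

theorem W_eq (k : ℤ) : (W k : LL m) = (W 1) ^ k := by
  have := map_zpow (Wh (m := m)) (Multiplicative.ofAdd 1) k
  rw [← ofAdd_zsmul, smul_eq_mul, mul_one] at this
  exact this
theorem T_eq (k : ℤ) : (T k : LL m) = (T 1) ^ k := by
  have := map_zpow (Th (m := m)) (Multiplicative.ofAdd 1) k
  rw [← ofAdd_zsmul, smul_eq_mul, mul_one] at this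
  exact this
theorem X_zpow (x : V) (k : ℤ) : (X (k • x) : LL m) = (X x) ^ k := by
  have := map_zpow (Xh (m := m)) (Multiplicative.ofAdd x) k
  rw [← ofAdd_zsmul] at this
  exact this
theorem Y_zpow (x : V) (k : ℤ) : (Y (k • x) : LL m) = (Y x) ^ k := by
  have := map_zpow (Yh (m := m)) (Multiplicative.ofAdd x) k
  rw [← ofAdd_zsmul] at this
  exact this

theorem T_X (n : ℤ) (x : V) : (T n * X x : LL m) = X (sh n x) * T n := by
  apply LL.ext <;> simp [T, X, mul_x, mul_y, mul_c, mul_n, sh_zero]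
theorem T_Y (n : ℤ) (x : V) : (T n * Y x : LL m) = Y (sh n x) * T n := by
  apply LL.ext <;> simp [T, Y, mul_x, mul_y, mul_c, mul_n, sh_zero]

theorem decomp (a : LL m) : a = X a.x * Y a.y * W (a.c - m * bt a.x a.y) * T a.n := by
  apply LL.ext <;> simp [T, X, Y, W, mul_x, mul_y, mul_c, mul_n, sh_zero]

/-- the generators -/
def gens : Set (LL m) := {X (Finsupp.single 0 1), Y (Finsupp.single 0 1), T 1, W 1}

theorem T_mem (n : ℤ) : (T n : LL m) ∈ Subgroup.closure (gens (m := m)) := by
  rw [T_eq]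
  exact Subgroup.zpow_mem _ (Subgroup.subset_closure (by simp [gens])) _
theorem W_mem (n : ℤ) : (W n : LL m) ∈ Subgroup.closure (gens (m := m)) := by
  rw [W_eq]
  exact Subgroup.zpow_mem _ (Subgroup.subset_closure (by simp [gens])) _

theorem X_mem (x : V) : (X x : LL m) ∈ Subgroup.closure (gens (m := m)) := by
  induction x using Finsupp.induction_linear with
  | zero => exact one_mem _
  | add f g hf hg => rw [X_add]; exact mul_mem hf hg
  | single i a =>
    have h1 : (X (Finsupp.single i 1) : LL m) ∈ Subgroup.closure (gens (m := m)) := by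
      have h := T_X (m := m) i (Finsupp.single 0 1)
      rw [sh_single, zero_add] at h
      rw [← mul_inv_eq_iff_eq_mul.2 h]
      exact mul_mem (mul_mem (T_mem i) (Subgroup.subset_closure (by simp [gens])))
        (inv_mem (T_mem i))
    have h2 : Finsupp.single i a = a • (Finsupp.single i 1 : V) := by
      rw [Finsupp.smul_single, smul_eq_mul, mul_one]
    rw [h2, X_zpow]
    exact Subgroup.zpow_mem _ h1 _

theorem Y_mem (x : V) : (Y x : LL m) ∈ Subgroup.closure (gens (m := m)) := by
  induction x using Finsupp.induction_linear with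
  | zero => exact one_mem _
  | add f g hf hg => rw [Y_add]; exact mul_mem hf hg
  | single i a =>
    have h1 : (Y (Finsupp.single i 1) : LL m) ∈ Subgroup.closure (gens (m := m)) := by
      have h := T_Y (m := m) i (Finsupp.single 0 1)
      rw [sh_single, zero_add] at h
      rw [← mul_inv_eq_iff_eq_mul.2 h]
      exact mul_mem (mul_mem (T_mem i) (Subgroup.subset_closure (by simp [gens])))
        (inv_mem (T_mem i))
    have h2 : Finsupp.single i a = a • (Finsupp.single i 1 : V) := by
      rw [Finsupp.smul_single, smul_eq_mul, mul_one]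
    rw [h2, Y_zpow]
    exact Subgroup.zpow_mem _ h1 _

theorem fg : Group.FG (LL m) := by
  rw [Group.fg_iff]
  refine ⟨gens, ?_, ?_⟩
  · rw [eq_top_iff]
    intro a _
    rw [decomp a]
    exact mul_mem (mul_mem (mul_mem (X_mem _) (Y_mem _)) (W_mem _)) (T_mem _)
  · unfold gens
    exact Set.toFinite _

theorem tf : TF (LL m) := by
  intro a k hk h
  have hk' : (k : ℤ) ≠ 0 := by exact_mod_cast hk.ne'
  have hn : a.n = 0 := by
    have := congrArg pn h
    rw [map_pow, map_one] at this
    have h2 : (k : ℕ) • a.n = 0 := this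
    rw [nsmul_eq_mul] at h2
    rcases mul_eq_zero.1 h2 with h3 | h3
    · exact absurd h3 hk'
    · exact h3
  have hx : ∀ j : ℕ, (a ^ j).n = 0 ∧ (a ^ j).x = j • a.x ∧ (a ^ j).y = j • a.y := by
    intro j
    induction j with
    | zero => rw [pow_zero, one_n, one_x, one_y]; simp
    | succ j ih =>
      rw [pow_succ, mul_n, mul_x, mul_y, ih.1, ih.2.1, ih.2.2, hn, sh_zero, sh_zero, succ_nsmul,
        succ_nsmul]
      simp
  have hz : ∀ v : V, k • v = 0 → v = 0 := by
    intro v hv
    ext i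
    have := DFunLike.congr_fun hv i
    rw [Finsupp.smul_apply, nsmul_eq_mul] at this
    rcases mul_eq_zero.1 this with h3 | h3
    · exact absurd h3 hk'
    · exact h3
  have h1 : a.x = 0 := hz _ (by rw [← (hx k).2.1, h, one_x])
  have h2 : a.y = 0 := hz _ (by rw [← (hx k).2.2, h, one_y])
  have hW : a = W a.c := by
    apply LL.ext
    · exact h1
    · exact h2
    · rfl
    · exact hn
  rw [hW, W_eq] at h
  have h5 : (W (a.c * k) : LL m) = 1 := by
    rw [W_eq, zpow_mul]; exact_mod_cast h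
  have h6 := congrArg LL.c h5
  have h7 : a.c * k = 0 := h6
  rcases mul_eq_zero.1 h7 with h8 | h8
  · rw [hW, h8]; rfl
  · exact absurd h8 hk'

def pxy : (pn (m := m)).ker →* Multiplicative (V × V) where
  toFun a := Multiplicative.ofAdd (a.1.x, a.1.y)
  map_one' := rfl
  map_mul' a b := by
    have h : a.1.n = 0 := a.2
    show Multiplicative.ofAdd ((a.1 * b.1).x, (a.1 * b.1).y) = _
    rw [mul_x, mul_y, h, sh_zero, sh_zero]
    rfl

def Wk : Multiplicative ℤ →* (pn (m := m)).ker :=
  Wh.codRestrict _ fun _ => rfl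

theorem solv : Group.IsSolvable (LL m) := by
  have h1 : Group.IsSolvable (pn (m := m)).ker := by
    refine solvable_of_ker_le_range Wk pxy ?_
    intro a ha
    have h2 : (a.1.x, a.1.y) = 0 := ha
    have h3 : a.1.n = 0 := a.2
    refine ⟨Multiplicative.ofAdd a.1.c, ?_⟩
    apply Subtype.ext
    apply LL.ext
    · exact (congrArg Prod.fst h2).symm
    · exact (congrArg Prod.snd h2).symm
    · rfl
    · exact h3.symm
  refine solvable_of_ker_le_range (pn (m := m)).ker.subtype pn ?_
  rw [Subgroup.range_subtype]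

theorem kill (Q : Type) [Group Q] [Finite Q] (q : (pc (m := m)).ker →* Q)
    (h : (W 1 : LL m) ^ m ∈ (pc (m := m)).ker) : q ⟨(W 1) ^ m, h⟩ = 1 := by
  set k := Nat.card Q with hk
  have hkpos : 0 < k := Nat.card_pos
  have mT : ∀ n : ℤ, (T n : LL m) ∈ (pc (m := m)).ker := fun n => by
    rw [MonoidHom.mem_ker]; show Multiplicative.ofAdd (((0 : ℤ)) : ZMod m) = 1; simp
  have mX : ∀ n : V, (X n : LL m) ∈ (pc (m := m)).ker := fun n => by
    rw [MonoidHom.mem_ker]; show Multiplicative.ofAdd (((0 : ℤ)) : ZMod m) = 1; simp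
  have mY : ∀ n : V, (Y n : LL m) ∈ (pc (m := m)).ker := fun n => by
    rw [MonoidHom.mem_ker]; show Multiplicative.ofAdd (((0 : ℤ)) : ZMod m) = 1; simp
  have hT : q ⟨T k, mT k⟩ = 1 := by
    have e : (⟨T k, mT k⟩ : (pc (m := m)).ker) = ⟨T 1, mT 1⟩ ^ k := by
      apply Subtype.ext
      show (T k : LL m) = (T 1) ^ k
      rw [T_eq, zpow_natCast]
    rw [e, map_pow, hk, pow_card_eq_one']
  have c1 : (⟨T k, mT k⟩ * ⟨X (Finsupp.single (-1) 1), mX _⟩ : (pc (m := m)).ker) =
      ⟨X (Finsupp.single (-1 + k) 1), mX _⟩ * ⟨T k, mT k⟩ := by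
    apply Subtype.ext
    show (T k * X (Finsupp.single (-1) 1) : LL m) = _
    rw [T_X, sh_single]
    rfl
  have c2 : (⟨X (Finsupp.single (-1) 1), mX _⟩ * ⟨Y (Finsupp.single 0 1), mY _⟩ :
      (pc (m := m)).ker) = ⟨Y (Finsupp.single 0 1), mY _⟩ * ⟨X (Finsupp.single (-1) 1), mX _⟩ := by
    apply Subtype.ext
    apply LL.ext
    · show Finsupp.single (-1) 1 + sh 0 0 = 0 + sh 0 (Finsupp.single (-1) 1)
      rw [sh_zero, sh_zero, add_comm]
    · show 0 + sh 0 (Finsupp.single 0 1) = Finsupp.single 0 1 + sh 0 0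
      rw [sh_zero, sh_zero, add_comm]
    · show 0 + 0 + m * bt (Finsupp.single (-1) 1) (sh 0 (Finsupp.single 0 1)) =
        0 + 0 + m * bt 0 (sh 0 0)
      rw [bt_single, sh_zero, S_single]
      simp
    · rfl
  have hnn : (0 : ℤ) ≤ -1 + k := by omega
  have c3 : (⟨X (Finsupp.single (-1 + k) 1), mX _⟩ * ⟨Y (Finsupp.single 0 1), mY _⟩ :
      (pc (m := m)).ker) = ⟨(W 1) ^ m, h⟩ * (⟨Y (Finsupp.single 0 1), mY _⟩ *
        ⟨X (Finsupp.single (-1 + k) 1), mX _⟩) := by
    apply Subtype.ext
    show (X (Finsupp.single (-1 + k) 1) * Y (Finsupp.single 0 1) : LL m) =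
      (W 1) ^ m * (Y (Finsupp.single 0 1) * X (Finsupp.single (-1 + k) 1))
    have hw : (W 1 : LL m) ^ m = W m := by rw [W_eq (m : ℤ), zpow_natCast]
    rw [hw]
    apply LL.ext
    · show Finsupp.single (-1 + k : ℤ) 1 + sh 0 0 = 0 + sh 0 (0 + sh 0 (Finsupp.single (-1 + k : ℤ) 1))
      simp [sh_zero]
    · show 0 + sh 0 (Finsupp.single 0 1) = 0 + sh 0 (Finsupp.single 0 1 + sh 0 0)
      simp [sh_zero]
    · show 0 + 0 + m * bt (Finsupp.single (-1 + k : ℤ) 1) (sh 0 (Finsupp.single 0 1)) =
        m + (0 + 0 + m * bt 0 (sh 0 0)) + m * bt 0 (sh 0 (Finsupp.single 0 1 + sh 0 0))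
      rw [bt_single, sh_zero, S_single, if_pos hnn]
      simp
    · rfl
  have d1 := congrArg q c1
  have d2 := congrArg q c2
  have d3 := congrArg q c3
  rw [map_mul, map_mul, hT, one_mul, mul_one] at d1
  rw [map_mul, map_mul] at d2
  rw [map_mul, map_mul, map_mul, ← d1, d2] at d3
  exact (mul_eq_right.1 d3.symm)

theorem main : Pool.Agent.Q103.PF.TaskL := by
  intro m hm
  refine ⟨LL m, inferInstance, ⟨⟨pc, W 1, fg, tf, solv, ?_, ?_, kill⟩⟩⟩
  · intro l
    apply LL.ext <;> simp [W, mul_x, mul_y, mul_c, mul_n, sh_zero, add_comm]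
  · show Multiplicative.ofAdd (((1 : ℤ)) : ZMod m) = Multiplicative.ofAdd 1
    rw [Int.cast_one]

end

end Pool.Agent.Q103.PF.TaskL
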