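import Pool.Agent.Q103.PF.Stmts2
import Pool.Agent.Q103.PF.TaskL

set_option autoImplicit false

namespace Pool.Agent.Q103.PF
open Pool.Agent.Helper240.Amen

/-- The topology of the profinite completion: induced from the product of the discrete finite quotients. -/
instance topCompl (G : Type) [Group G] : TopologicalSpace (Compl G) :=
  TopologicalSpace.induced (fun x => x.1)
    (@Pi.topologicalSpace (Idx G) (fun N => G ⧸ N.1) (fun _ => ⊥))

instance t2Compl (G : Type) [Group G] : T2Space (Compl G) := by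
  letI : ∀ N : Idx G, TopologicalSpace (G ⧸ N.1) := fun _ => ⊥
  haveI : ∀ N : Idx G, DiscreteTopology (G ⧸ N.1) := fun _ => ⟨rfl⟩
  exact T2Space.of_injective_continuous (f := fun x : Compl G => x.1) Subtype.val_injective
    continuous_induced_dom

/-- `H` satisfies the condition of the problem. -/
def Occurs (H : Type) [Group H] [TopologicalSpace H] : Prop :=
  ∃ (G : Type) (_ : Group G), Group.FG G ∧ TF G ∧ Amenable G ∧
    ∃ D : Subgroup (Compl G), IsClosed (D : Set (Compl G)) ∧ Nonempty (H ≃ₜ* D) ∧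
      ∀ x : Compl G, (∀ k : G, can G k * x * (can G k)⁻¹ ∈ D) → x = 1

theorem datG (hE : TaskE) (hCoc : TaskCoc) (hTF : TaskGTF) (hFG : TaskGFG) (hS : TaskGSolv)
    (hK : TaskGKill) (hL : TaskL) (F : Type) [Group F] [Finite F] :
    ∃ (G : Type) (_ : Group G), Nonempty (DatG F G) := by
  obtain ⟨I, _, _, C, hC⟩ := hCoc hE F
  have hpos : 0 < Nat.card F := Nat.card_pos
  obtain ⟨L, _, ⟨D⟩⟩ := hL _ hpos
  obtain ⟨θ, h1, h2⟩ := hK F I L _ C D hpos
  exact ⟨GG C D.π, inferInstance, ⟨⟨rho C D.π, θ, hFG F I L _ C D.π hpos D.fg,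
    hTF F I L _ C D.π D.tf hC, hS F I L _ C D.π D.solv, h1, h2⟩⟩⟩

theorem asm (hE : TaskE) (hCoc : TaskCoc) (hTF : TaskGTF) (hFG : TaskGFG) (hS : TaskGSolv)
    (hK : TaskGKill) (hL : TaskL) (hFin : TaskFinExt) (h1 : TaskSwFG) (h2 : TaskSwTF)
    (h3 : TaskSwAm) (h4 : TaskSwCompl) (H : Type) [Group H] [Finite H] [TopologicalSpace H]
    [DiscreteTopology H] : Occurs H := by
  obtain ⟨G, _, ⟨D⟩⟩ := datG hE hCoc hTF hFG hS hK hL H
  obtain ⟨K, hK1, ⟨φ⟩, hK2⟩ := h4 H G D
  refine ⟨Sw G, inferInstance, h1 G D.fg, h2 G D.tf, h3 hFin H G D, K, hK1.isClosed, ?_, hK2⟩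
  haveI : Finite K := hK1.to_subtype
  exact ⟨⟨φ, continuous_of_discreteTopology, continuous_of_discreteTopology⟩⟩

end Pool.Agent.Q103.PF
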