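import Pool.Agent.Q103.PF.Stmts2

set_option autoImplicit false

namespace Pool.Agent.Q103.PF.TaskCoc

open Pool.Agent.Q103.PF

private theorem shift {F : Type} [Group F] [Finite F] {m : ℕ} (c : F) (e : F → ZMod m) (d : ZMod m)
    (h : ∀ u, e (u * c) = e u + d) (z : F) (hz : z ∈ Subgroup.zpowers c) :
    ∃ t : ZMod m, ∀ u, e (u * z) = e u + t := by
  rw [← mem_powers_iff_mem_zpowers] at hz
  obtain ⟨n, rfl⟩ := hz
  refine ⟨n * d, fun u => ?_⟩
  induction n with
  | zero => simp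
  | succ n ih =>
    simp only at ih ⊢
    rw [pow_succ, ← mul_assoc, h, ih]
    push_cast
    ring

private theorem rep {F : Type} [Group F] [Finite F] {m : ℕ} (c : F) (e : F → ZMod m) (d : ZMod m)
    (h : ∀ u, e (u * c) = e u + d) (f : F) (x : F ⧸ Subgroup.zpowers c) (u : F)
    (hu : (u : F ⧸ Subgroup.zpowers c) = x) :
    e (f * x.out) - e x.out = e (f * u) - e u := by
  have h1 : ((x.out : F) : F ⧸ Subgroup.zpowers c) = (u : F ⧸ Subgroup.zpowers c) := by
    rw [hu]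
    exact Quotient.out_eq' x
  have h2 : x.out⁻¹ * u ∈ Subgroup.zpowers c := QuotientGroup.eq.1 h1
  obtain ⟨t, ht⟩ := shift c e d h _ h2
  have h3 := ht x.out
  have h4 := ht (f * x.out)
  have e1 : x.out * (x.out⁻¹ * u) = u := by group
  have e2 : f * x.out * (x.out⁻¹ * u) = f * u := by group
  rw [e1] at h3
  rw [e2] at h4
  rw [h3, h4]
  ring

theorem main : Pool.Agent.Q103.PF.TaskCoc := by
  classical
  intro hE F _ _
  choose e d hd he using hE F
  refine ⟨Σ c : {c : F // c ≠ 1}, F ⧸ Subgroup.zpowers c.1, inferInstance, inferInstance,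
    ⟨fun f i => e i.1.1 i.1.2 (f * i.2.out) - e i.1.1 i.1.2 i.2.out, ?_⟩, ?_⟩
  · rintro f f' ⟨c, x⟩
    have h1 := rep c.1 (e c.1 c.2) (d c.1 c.2) (he c.1 c.2) f (f' • x) (f' * x.out) (by
      conv_rhs => rw [← Quotient.out_eq' x]
      rfl)
    change e c.1 c.2 (f * f' * x.out) - e c.1 c.2 x.out =
      (e c.1 c.2 (f * (f' • x).out) - e c.1 c.2 (f' • x).out) +
        (e c.1 c.2 (f' * x.out) - e c.1 c.2 x.out)
    rw [h1, mul_assoc]
    ring
  · intro f hf
    refine ⟨⟨⟨f, hf⟩, ((1 : F) : F ⧸ Subgroup.zpowers f)⟩, ?_, ?_⟩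
    · change (⟨⟨f, hf⟩, f • ((1 : F) : F ⧸ Subgroup.zpowers f)⟩ :
        Σ c : {c : F // c ≠ 1}, F ⧸ Subgroup.zpowers c.1) = _
      have h1 : f • ((1 : F) : F ⧸ Subgroup.zpowers f) = ((1 : F) : F ⧸ Subgroup.zpowers f) := by
        change ((f * 1 : F) : F ⧸ Subgroup.zpowers f) = _
        rw [QuotientGroup.eq]
        simp
      rw [h1]
    · change e f hf (f * (((1 : F) : F ⧸ Subgroup.zpowers f)).out) -
        e f hf (((1 : F) : F ⧸ Subgroup.zpowers f)).out ≠ 0
      rw [rep f (e f hf) (d f hf) (he f hf) f _ 1 rfl]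
      have h2 := he f hf 1
      rw [one_mul] at h2
      rw [mul_one, h2]
      simpa using hd f hf

end Pool.Agent.Q103.PF.TaskCoc
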