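import Pool.Agent.Q103.PF.Stmts

set_option autoImplicit false

namespace Pool.Agent.Q103.PF.TaskE

open Pool.Agent.Q103.PF

theorem main : Pool.Agent.Q103.PF.TaskE := by
  intro F _ _ c hc
  classical
  have hm : 0 < Nat.card F := Nat.card_pos
  obtain ⟨q, hq⟩ := orderOf_dvd_natCard c
  have ho : orderOf c ≠ 1 := fun h => hc (orderOf_eq_one_iff.1 h)
  have hpos : 0 < orderOf c := orderOf_pos c
  have hq0 : 0 < q := by
    rcases Nat.eq_zero_or_pos q with h | h
    · rw [h, mul_zero] at hq
      omega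
    · exact h
  have hqm : q < Nat.card F := by
    rw [hq]
    exact (lt_mul_iff_one_lt_left hq0).2 (by omega)
  let s : F → F := fun u => (QuotientGroup.mk u : F ⧸ Subgroup.zpowers c).out
  have hs : ∀ u, ∃ k : ℤ, c ^ k = (s u)⁻¹ * u := by
    intro u
    have h1 : (s u)⁻¹ * u ∈ Subgroup.zpowers c := by
      rw [← QuotientGroup.eq]
      exact Quotient.out_eq _
    exact Subgroup.mem_zpowers_iff.1 h1
  choose k hk using hs
  refine ⟨fun u => (q : ZMod (Nat.card F)) * (k u : ℤ), (q : ZMod (Nat.card F)), ?_, fun u => ?_⟩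
  · intro h
    have h1 := Nat.le_of_dvd hq0 ((ZMod.natCast_eq_zero_iff q (Nat.card F)).1 h)
    omega
  · have hsu : s (u * c) = s u := by
      have h1 : (QuotientGroup.mk (u * c) : F ⧸ Subgroup.zpowers c) = QuotientGroup.mk u := by
        rw [QuotientGroup.eq]
        have h2 : (u * c)⁻¹ * u = c⁻¹ := by group
        rw [h2]
        exact Subgroup.inv_mem _ (Subgroup.mem_zpowers c)
      simp only [s, h1]
    have h1 : c ^ (k (u * c)) = c ^ (k u + 1) := by
      rw [hk, hsu, zpow_add_one, hk]
      group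
    have h2 := (zpow_eq_zpow_iff_modEq.1 h1).symm.dvd
    obtain ⟨t, ht⟩ := h2
    have h3 : k (u * c) = k u + 1 + orderOf c * t := by linarith
    have h4 : ((orderOf c : ℕ) : ZMod (Nat.card F)) * (q : ZMod (Nat.card F)) = 0 := by
      rw [← Nat.cast_mul, ← hq, ZMod.natCast_self]
    simp only [h3]
    push_cast
    linear_combination (t : ZMod (Nat.card F)) * h4

end Pool.Agent.Q103.PF.TaskE
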