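import Mathlib
import Pool.Agent.Helper240.Amen.HB

/-!
Blueprint for MP_ccbc6b_al: every finite group `H` is a closed subgroup with trivial rational core of the
profinite completion of a finitely generated torsion-free amenable group.
-/

set_option autoImplicit false

namespace Pool.Agent.Q103.PF
open Pool.Agent.Helper240.Amen

/-- the normal subgroups of finite index -/
abbrev Idx (G : Type) [Group G] : Type := {N : Subgroup G // N.Normal ∧ N.FiniteIndex}

instance (G : Type) [Group G] (N : Idx G) : N.1.Normal := N.2.1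

/-- The profinite completion: compatible families in the product of the finite quotients. -/
def Compl (G : Type) [Group G] : Subgroup (∀ N : Idx G, G ⧸ N.1) where
  carrier := {x | ∀ (M N : Idx G) (h : M.1 ≤ N.1),
    QuotientGroup.map M.1 N.1 (MonoidHom.id G) (by simpa using h) (x M) = x N}
  mul_mem' := by
    intro x y hx hy M N h
    rw [Pi.mul_apply, Pi.mul_apply, map_mul, hx M N h, hy M N h]
  one_mem' := by
    intro M N h
    rw [Pi.one_apply, Pi.one_apply, map_one]
  inv_mem' := by
    intro x hx M N h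
    rw [Pi.inv_apply, Pi.inv_apply, map_inv, hx M N h]

/-- The canonical map `G → Ĝ`. -/
def can (G : Type) [Group G] : G →* Compl G where
  toFun g := ⟨fun _ => (g : G ⧸ _), fun _ _ _ => rfl⟩
  map_one' := rfl
  map_mul' _ _ := rfl

/-- torsion-free -/
def TF (G : Type) [Group G] : Prop := ∀ (g : G) (n : ℕ), 0 < n → g ^ n = 1 → g = 1

/-- the Heisenberg type group `L` with a central element `w` of infinite order -/
structure Dat (m : ℕ) (L : Type) [Group L] where
  π : L →* Multiplicative (ZMod m)
  w : L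
  fg : Group.FG L
  tf : TF L
  solv : Group.IsSolvable L
  comm : ∀ l, l * w = w * l
  πw : π w = Multiplicative.ofAdd 1
  kill : ∀ (Q : Type) [Group Q] [Finite Q] (q : π.ker →* Q) (h : w ^ m ∈ π.ker), q ⟨w ^ m, h⟩ = 1

/-- the group `G` of `F` -/
structure DatG (F G : Type) [Group F] [Group G] where
  ρ : G →* F
  θ : F → G
  fg : Group.FG G
  tf : TF G
  solv : Group.IsSolvable ρ.ker
  sec : ∀ f, ρ (θ f) = f
  kill : ∀ (Q : Type) [Group Q] [Finite Q] (q : G →* Q) (f f' : F),
    q (θ (f * f')) = q (θ f) * q (θ f')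

/-- T1. Average an `N`-invariant functional over the cosets (`MM π p N` of `Helper240/Amen/HB.lean`). -/
def TaskFinExt : Prop := ∀ (G : Type) [Group G] (N : Subgroup G) [N.Normal] [Finite (G ⧸ N)],
  InvHB N → InvHB G

/-- T2. `e u = d k` for `u = s c^k`, `s` the chosen representative of the coset `u ⟨c⟩`,
`d = |F| / ord c`. -/
def TaskE : Prop := ∀ (F : Type) [Group F] [Finite F] (c : F), c ≠ 1 →
  ∃ (e : F → ZMod (Nat.card F)) (d : ZMod (Nat.card F)), d ≠ 0 ∧ ∀ u, e (u * c) = e u + d

/-- T3. The group of `F` (`L` from the structure `Dat`, `m = |F|`). For `c ≠ 1` let `e c` be from `TaskE`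
(`e 1 = 0`), `I = Σ c : F, F ⧸ zpowers c` (`F` acts on the left, finite), `κ f (c, x) = e c (f u) - e c u`, `u` any
representative of `x` (well defined; `κ (f f') i = κ f (f' i) + κ f' i`).
`G = {(f, g) : f ∈ F, g : I → L, π (g i) = κ f i}`, `(f, g) (f', g') = (f f', i ↦ g (f' i) g' i)`.
FG: the kernel of `G → F` has finite index in the finitely generated group `I → L` (`Subgroup.fg_of_index_ne_zero`)
and finite index in `G`. Torsion-free: if `(f, g)^n = 1`, `f ≠ 1`, look at `i = (f, [1])`, which is fixed by `f`: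
`g i ^ n = 1`, so `g i = 1`, but `κ f i = d ≠ 0`. `θ f = (f, i ↦ w ^ (κ f i).val)`: `θ f θ f'` and `θ (f f')` differ
by elements `(w ^ m)` at some places, which are killed in all finite quotients (`Dat.kill`, the kernel of `π` at
the place `i`). -/
def TaskG : Prop := ∀ (F : Type) [Group F] [Finite F] (L : Type) [Group L],
  Dat (Nat.card F) L → ∃ (G : Type) (_ : Group G), Nonempty (DatG F G)

/-- T4. The swap trick. `G' = (G × G) ⋊ ℤ` (`Multiplicative ℤ`), the generator swaps. -/
abbrev swapHom (G : Type) [Group G] : Multiplicative ℤ →* MulAut (G × G) :=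
  zpowersHom _ (MulEquiv.prodComm (M := G) (N := G))

/-- the group `(G × G) ⋊ ℤ` -/
abbrev Sw (G : Type) [Group G] : Type := (G × G) ⋊[swapHom G] (Multiplicative ℤ)

def TaskSwFG : Prop := ∀ (G : Type) [Group G], Group.FG G → Group.FG (Sw G)

def TaskSwTF : Prop := ∀ (G : Type) [Group G], TF G → TF (Sw G)

/-- T6. `{(a, b, n) : a, b ∈ ker ρ}` is solvable, normal and of finite index (kernel of the map to
`(F × F) ⋊ ℤ`, ...); `TaskFinExt`, `InvHB.of_derived`, `InvHB.step`, `InvHB.amenable`. -/
def TaskSwAm : Prop := TaskFinExt → ∀ (F G : Type) [Group F] [Finite F] [Group G],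
  DatG F G → Amenable (Sw G)

/-- T7. `ι f` is the family of the classes of `((θ f, 1), 0)`; `t ι(f) t⁻¹` is the one of `((1, θ f), 0)`; the
kernel of `Sw G → (F × F) ⋊ ℤ → (F × F) ⋊ ℤ/2` (or the elements `(a, b, n)`, `a, b ∈ ker ρ`, `n` even)
separates them. -/
def TaskSwCompl : Prop := ∀ (F G : Type) [Group F] [Finite F] [Group G], DatG F G →
  ∃ D : Subgroup (Compl (Sw G)), (D : Set (Compl (Sw G))).Finite ∧ Nonempty (F ≃* D) ∧
    ∀ x : Compl (Sw G), (∀ k : Sw G, can (Sw G) k * x * (can (Sw G) k)⁻¹ ∈ D) → x = 1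

/-- T8 (helper103). -/
def TaskL : Prop := ∀ m : ℕ, 0 < m → ∃ (L : Type) (_ : Group L), Nonempty (Dat m L)

end Pool.Agent.Q103.PF
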