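import Mathlib
import Pool.Agent.Q103.PF.Stmts

set_option autoImplicit false

namespace Pool.Agent.Q103.PF.TaskFinExt

open Pool.Agent.Helper240.Amen

/-- Averaging over the finite quotient. -/
theorem main : Pool.Agent.Q103.PF.TaskFinExt := by
  intro G _ N hNn hfin hN E _ _ π p h1 h2 h3
  obtain ⟨m₀, hm, hinv⟩ := hN E (π.comp N.subtype) p h1 h2 (fun g x => h3 g x)
  have := Fintype.ofFinite (G ⧸ N)
  obtain ⟨F, hFdef⟩ : ∃ F : G ⧸ N → (E →ₗ[ℝ] ℝ), ∀ c, F c = m₀ ∘ₗ (π c.out) :=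
    ⟨fun c => m₀ ∘ₗ (π c.out), fun _ => rfl⟩
  have hF : ∀ (g : G) (x : E), F (g : G ⧸ N) x = m₀ (π g x) := by
    intro g x
    obtain ⟨n, hn⟩ := QuotientGroup.mk_out_eq_mul N g
    rw [hFdef, LinearMap.comp_apply, hn]
    have h4 : π (g * n) x = π (g * n * g⁻¹) (π g x) := by
      rw [← Module.End.mul_apply, ← map_mul]
      congr 2
      group
    rw [h4]
    exact hinv ⟨g * n * g⁻¹, hNn.conj_mem n n.2 g⟩ (π g x)
  have hk : (0 : ℝ) < Fintype.card (G ⧸ N) := by
    exact_mod_cast Fintype.card_pos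
  refine ⟨((Fintype.card (G ⧸ N) : ℝ))⁻¹ • ∑ c, F c, fun x => ?_, fun g x => ?_⟩
  · rw [LinearMap.smul_apply, LinearMap.sum_apply, smul_eq_mul]
    have h5 : ∑ c, F c x ≤ ∑ _c : G ⧸ N, p x := by
      apply Finset.sum_le_sum
      intro c _
      rw [hFdef, LinearMap.comp_apply]
      exact (hm _).trans (h3 _ _)
    rw [Finset.sum_const, Finset.card_univ, nsmul_eq_mul] at h5
    calc ((Fintype.card (G ⧸ N) : ℝ))⁻¹ * ∑ c, F c x
        ≤ ((Fintype.card (G ⧸ N) : ℝ))⁻¹ * (Fintype.card (G ⧸ N) * p x) := by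
          gcongr
      _ = p x := by
          field_simp
  · rw [LinearMap.smul_apply, LinearMap.smul_apply, LinearMap.sum_apply, LinearMap.sum_apply]
    congr 1
    have h6 : ∀ c : G ⧸ N, F c (π g x) = F (c * (g : G ⧸ N)) x := by
      intro c
      have h7 : c * (g : G ⧸ N) = ((c.out * g : G) : G ⧸ N) := by
        rw [QuotientGroup.mk_mul, QuotientGroup.out_eq']
      rw [h7, hF, hFdef, LinearMap.comp_apply, map_mul, Module.End.mul_apply]
    rw [Finset.sum_congr rfl fun c _ => h6 c]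
    exact Fintype.sum_equiv (Equiv.mulRight (g : G ⧸ N)) _ _ (fun c => rfl)

end Pool.Agent.Q103.PF.TaskFinExt

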