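import Pool.Agent.Q103.PF.Stmts2

/-! TaskGFG of the blueprint PF (helper103's MP_ccbc6b_al), proved by helper6. -/

set_option autoImplicit false

namespace Pool.Agent.Q103.PF.TaskGFG
open Pool.Agent.Q103.PF

/-- the embedding of the functions `I → ker π` -/
private def phi {F I : Type} [Group F] [MulAction F I] {m : ℕ} (C : Coc F I m) {L : Type} [Group L]
    (π : L →* Multiplicative (ZMod m)) : (I → π.ker) →* GG C π where
  toFun g := ⟨1, fun i => (g i : L), fun i => by
    rw [C.one, ofAdd_zero]; exact (g i).2⟩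
  map_one' := rfl
  map_mul' g g' := by
    apply GG.ext
    · exact (one_mul _).symm
    · funext i
      show ((g i : L) * (g' i : L)) = (g ((1 : F) • i) : L) * (g' i : L)
      rw [one_smul]

theorem main : Pool.Agent.Q103.PF.TaskGFG := by
  intro F I L _ _ _ _ _ m C π hm hL
  classical
  haveI : NeZero m := ⟨hm.ne'⟩
  haveI : Finite (Multiplicative (ZMod m)) := inferInstanceAs (Finite (ZMod m))
  haveI : π.ker.FiniteIndex := by infer_instance
  haveI : Group.FG L := hL
  haveI : Group.FG π.ker := Subgroup.fg_of_index_ne_zero _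
  haveI hFG : Group.FG (I → π.ker) := inferInstance
  obtain ⟨S, hS, hSf⟩ := Group.fg_iff.1 hFG
  rw [Group.fg_iff]
  let t : F → GG C π := fun f => if h : ∃ a : GG C π, a.f = f then h.choose else 1
  refine ⟨(phi C π) '' S ∪ Set.range t, ?_, (hSf.image _).union (Set.finite_range _)⟩
  rw [eq_top_iff]
  intro a _
  have hex : ∃ b : GG C π, b.f = a.f := ⟨a, rfl⟩
  have ht : (t a.f).f = a.f := by
    simp only [t, dif_pos hex]
    exact hex.choose_spec
  have htm : t a.f ∈ Subgroup.closure ((phi C π) '' S ∪ Set.range t) :=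
    Subgroup.subset_closure (Or.inr ⟨_, rfl⟩)
  have hr : ∀ g : I → π.ker, phi C π g ∈ Subgroup.closure ((phi C π) '' S ∪ Set.range t) := by
    intro g
    have h1 : g ∈ Subgroup.closure S := by rw [hS]; trivial
    have h2 : phi C π g ∈ (Subgroup.closure S).map (phi C π) := ⟨g, h1, rfl⟩
    rw [MonoidHom.map_closure] at h2
    exact Subgroup.closure_mono Set.subset_union_left h2
  set b := (t a.f)⁻¹ * a with hb
  have hbf : b.f = 1 := by
    show (t a.f).f⁻¹ * a.f = 1
    rw [ht, inv_mul_cancel]
  have hker : ∀ i, b.g i ∈ π.ker := by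
    intro i
    rw [MonoidHom.mem_ker, b.h i, hbf, C.one, ofAdd_zero]
  have hbe : b = phi C π (fun i => ⟨b.g i, hker i⟩) := by
    apply GG.ext
    · exact hbf
    · rfl
  have : a = t a.f * b := by rw [hb, mul_inv_cancel_left]
  rw [this]
  refine Subgroup.mul_mem _ htm ?_
  rw [hbe]
  exact hr _

end Pool.Agent.Q103.PF.TaskGFG
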