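import Pool.Agent.Q103.PF.Stmts2

/-!
# The section of the group of a cocycle is multiplicative in all finite quotients
-/

set_option autoImplicit false

namespace Pool.Agent.Q103.PF.TaskGKill

open Pool.Agent.Q103.PF

section

variable {F I L : Type} [Group F] [MulAction F I] [Group L] {m : ℕ} (C : Coc F I m)
  (π : L →* Multiplicative (ZMod m))

open Classical in
/-- the element of `ker π` at the place `j` -/
noncomputable def place (j : I) : π.ker →* GG C π where
  toFun x := ⟨1, fun i => if i = j then (x : L) else 1, fun i => by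
    rw [C.one, ofAdd_zero]
    split_ifs
    · exact x.2
    · exact map_one _⟩
  map_one' := by
    apply GG.ext
    · rfl
    · funext i
      show (if i = j then ((1 : π.ker) : L) else 1) = 1
      split_ifs <;> rfl
  map_mul' x y := by
    apply GG.ext
    · exact (one_mul _).symm
    · funext i
      show (if i = j then ((x * y : π.ker) : L) else 1) =
        (if (1 : F) • i = j then (x : L) else 1) * (if i = j then (y : L) else 1)
      rw [one_smul]
      split_ifs
      · rfl
      · rw [one_mul]

end

theorem main : Pool.Agent.Q103.PF.TaskGKill := by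
  intro F I L _ _ _ _ m C D hm
  classical
  have : NeZero m := ⟨hm.ne'⟩
  have hw : ∀ x : ZMod m, D.π (D.w ^ x.val) = Multiplicative.ofAdd x := by
    intro x
    rw [map_pow, D.πw, ← ofAdd_nsmul, nsmul_one, ZMod.natCast_zmod_val]
  have hker : D.w ^ m ∈ D.π.ker := by
    rw [MonoidHom.mem_ker, map_pow, D.πw, ← ofAdd_nsmul, nsmul_one, ZMod.natCast_self, ofAdd_zero]
  refine ⟨fun f => ⟨f, fun i => D.w ^ (C.κ f i).val, fun i => hw _⟩, fun f => rfl, ?_⟩
  intro Q _ _ q f f'
  have hplace : ∀ (j : I) (k : ℕ), q (place C D.π j (⟨D.w ^ m, hker⟩ ^ k)) = 1 := by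
    intro j k
    have h2 : q (place C D.π j ⟨D.w ^ m, hker⟩) = 1 := D.kill Q (q.comp (place C D.π j)) hker
    rw [map_pow, map_pow, h2, one_pow]
  have hmem : ∀ (k : I → ℕ) (T : Finset I) (i : I),
      D.π (if i ∈ T then (D.w ^ m) ^ k i else 1) = Multiplicative.ofAdd (C.κ 1 i) := by
    intro k T i
    rw [C.one, ofAdd_zero]
    split_ifs
    · rw [map_pow, MonoidHom.mem_ker.mp hker, one_pow]
    · exact map_one _
  have key : ∀ (k : I → ℕ) (T : Finset I) (e : GG C D.π), e.f = 1 →
      (∀ i, e.g i = if i ∈ T then (D.w ^ m) ^ k i else 1) → q e = 1 := by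
    intro k T
    induction T using Finset.induction_on with
    | empty =>
      intro e h1 h2
      have h3 : e = 1 := by
        apply GG.ext
        · exact h1
        · funext i
          rw [h2 i, if_neg (Finset.notMem_empty i)]
          rfl
      rw [h3, map_one]
    | insert j T hj ih =>
      intro e h1 h2
      have he : e = place C D.π j (⟨D.w ^ m, hker⟩ ^ k j) *
          (⟨1, fun i => if i ∈ T then (D.w ^ m) ^ k i else 1, hmem k T⟩ : GG C D.π) := by
        apply GG.ext
        · rw [h1]
          exact (one_mul _).symm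
        · funext i
          rw [h2 i]
          show _ = (if (1 : F) • i = j then
            (((⟨D.w ^ m, hker⟩ : D.π.ker) ^ k j : D.π.ker) : L) else 1) *
              (if i ∈ T then (D.w ^ m) ^ k i else 1)
          rw [one_smul]
          by_cases hij : i = j
          · subst hij
            rw [if_pos (Finset.mem_insert_self _ _), if_pos rfl, if_neg hj, mul_one]
            rfl
          · rw [if_neg hij, one_mul]
            simp only [Finset.mem_insert, hij, false_or]
      rw [he, map_mul, hplace, ih _ rfl (fun i => rfl), one_mul]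
  have hfin := Fintype.ofFinite I
  have hz := key (fun i => ((C.κ f (f' • i)).val + (C.κ f' i).val) / m) Finset.univ
    ⟨1, fun i => if i ∈ Finset.univ then
      (D.w ^ m) ^ (((C.κ f (f' • i)).val + (C.κ f' i).val) / m) else 1, hmem _ _⟩ rfl
      (fun i => rfl)
  rw [← map_mul, ← mul_one (q _), ← hz, ← map_mul]
  congr 1
  apply GG.ext
  · exact mul_one (f * f')
  · funext i
    show D.w ^ (C.κ (f * f') ((1 : F) • i)).val * (if i ∈ Finset.univ then
      (D.w ^ m) ^ (((C.κ f (f' • i)).val + (C.κ f' i).val) / m) else 1) =
        D.w ^ (C.κ f (f' • i)).val * D.w ^ (C.κ f' i).val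
    rw [one_smul, if_pos (Finset.mem_univ _), C.coc, ZMod.val_add, ← pow_mul, ← pow_add, ← pow_add,
      Nat.mod_add_div]

end Pool.Agent.Q103.PF.TaskGKill
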