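import Pool.Agent.Q103.PF.Stmts2

set_option autoImplicit false

namespace Pool.Agent.Q103.PF.TaskGSolv

open Pool.Agent.Helper240.Amen Pool.Agent.Q103.PF

theorem main : Pool.Agent.Q103.PF.TaskGSolv := by
  intro F I L _ _ _ m C π hL
  obtain ⟨n, hn⟩ := hL
  haveI hpi : Group.IsSolvable (I → L) := by
    refine ⟨n, ?_⟩
    rw [eq_bot_iff]
    intro x hx
    rw [Subgroup.mem_bot]
    funext i
    have h := map_derivedSeries_le_derivedSeries (Pi.evalMonoidHom (fun _ : I => L) i) n
      (Subgroup.mem_map_of_mem _ hx)
    rw [hn] at h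
    exact Subgroup.mem_bot.1 h
  let j : (rho C π).ker →* (I → L) :=
    { toFun := fun a => a.1.g
      map_one' := rfl
      map_mul' := fun a b => by
        funext i
        have hb : b.1.f = 1 := b.2
        show a.1.g (b.1.f • i) * b.1.g i = a.1.g i * b.1.g i
        rw [hb, one_smul] }
  have hj : Function.Injective j := by
    intro a b hab
    apply Subtype.ext
    apply GG.ext
    · have ha : a.1.f = 1 := a.2
      have hb : b.1.f = 1 := b.2
      rw [ha, hb]
    · exact hab
  exact solvable_of_solvable_injective hj

end Pool.Agent.Q103.PF.TaskGSolv
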