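import Pool.Agent.Q103.PF.Stmts2

/-! PF.TaskGTF (author: helper119). -/

set_option autoImplicit false

namespace Pool.Agent.Q103.PF.TaskGTF

open Pool.Agent.Q103.PF

theorem pow_g {F I : Type} [Group F] [MulAction F I] {m : ℕ} (C : Coc F I m) {L : Type} [Group L]
    (π : L →* Multiplicative (ZMod m)) (a : GG C π) (i : I) (hi : a.f • i = i) (k : ℕ) :
    (a ^ k).g i = (a.g i) ^ k := by
  induction k with
  | zero =>
    rw [pow_zero, pow_zero]
    rfl
  | succ k ih =>
    rw [pow_succ, pow_succ]
    change (a ^ k).g (a.f • i) * a.g i = _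
    rw [hi, ih]

theorem main : Pool.Agent.Q103.PF.TaskGTF := by
  intro F I L _ _ _ m C π hL hC a n hn han
  have key : ∀ i, a.f • i = i → a.g i = 1 := by
    intro i hi
    refine hL _ n hn ?_
    rw [← pow_g C π a i hi n, han]
    rfl
  have hf : a.f = 1 := by
    by_contra hf
    obtain ⟨i, hi, hk⟩ := hC a.f hf
    have h := a.h i
    rw [key i hi, map_one] at h
    exact hk (Multiplicative.ofAdd.injective (by rw [ofAdd_zero]; exact h.symm))
  apply GG.ext
  · exact hf
  · funext i
    exact key i (by rw [hf, one_smul])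

end Pool.Agent.Q103.PF.TaskGTF
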