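import Mathlib
import Pool.Agent.Q103.PF.Stmts

/-! # TaskSwAm of the blueprint Q103/PF (helper161) -/

open Pool.Agent.Helper240.Amen

namespace Pool.Agent.Q103.PF.TaskSwAm

theorem invHB_of_surj {A B : Type} [Group A] [Group B] (e : A →* B) (he : Function.Surjective e)
    (h : InvHB A) : InvHB B := by
  intro E _ _ π p h1 h2 hp
  obtain ⟨m, hm1, hm2⟩ := h E (π.comp e) p h1 h2 (fun g x => hp _ x)
  refine ⟨m, hm1, fun g x => ?_⟩
  obtain ⟨a, rfl⟩ := he g
  exact hm2 a x

theorem main : Pool.Agent.Q103.PF.TaskSwAm := by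
  intro hExt F G _ _ _ D
  -- the kernel in `G × G`
  let f : G × G →* F × F := D.ρ.prodMap D.ρ
  have hsolv : Group.IsSolvable f.ker := by
    haveI := D.solv
    let j : f.ker →* D.ρ.ker × D.ρ.ker :=
      { toFun := fun x => (⟨x.1.1, by
            have h := x.2
            rw [MonoidHom.mem_ker] at h ⊢
            exact congrArg Prod.fst h⟩, ⟨x.1.2, by
            have h := x.2
            rw [MonoidHom.mem_ker] at h ⊢
            exact congrArg Prod.snd h⟩)
        map_one' := rfl
        map_mul' := fun _ _ => rfl }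
    have hj : Function.Injective j := by
      intro x y hxy
      have h1 := congrArg (fun z => (z.1 : G)) hxy
      have h2 := congrArg (fun z => (z.2 : G)) hxy
      exact Subtype.ext (Prod.ext h1 h2)
    exact solvable_of_solvable_injective hj
  obtain ⟨n, hn⟩ := hsolv
  have hN : InvHB f.ker := InvHB.of_derived n f.ker hn
  haveI : Finite ((G × G) ⧸ f.ker) :=
    Finite.of_injective (QuotientGroup.kerLift f) (QuotientGroup.kerLift_injective f)
  have hGG : InvHB (G × G) := hExt (G × G) f.ker hN
  -- the kernel of the projection to `ℤ`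
  let r : Sw G →* Multiplicative ℤ := SemidirectProduct.rightHom
  have hK : InvHB r.ker := by
    let i : G × G →* r.ker :=
      (SemidirectProduct.inl : G × G →* Sw G).codRestrict r.ker (fun g => by
        rw [MonoidHom.mem_ker]
        exact SemidirectProduct.rightHom_inl g)
    refine invHB_of_surj i ?_ hGG
    rintro ⟨x, hx⟩
    have hx' : x ∈ (SemidirectProduct.inl : G × G →* Sw G).range := by
      rw [SemidirectProduct.range_inl_eq_ker_rightHom]
      exact hx
    obtain ⟨g, hg⟩ := hx'
    exact ⟨g, Subtype.ext hg⟩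
  have hSw : InvHB (Sw G) := by
    refine InvHB.step r.ker ?_ hK
    intro a b
    rw [MonoidHom.mem_ker, map_mul, map_mul, map_mul, map_inv, map_inv]
    rw [mul_comm (r a) (r b), mul_assoc (r b), mul_inv_cancel, mul_one, mul_inv_cancel]
  exact hSw.amenable

end Pool.Agent.Q103.PF.TaskSwAm
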