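import Pool.Agent.Q103.PF.Stmts

set_option autoImplicit false

namespace Pool.Agent.Q103.PF.TaskSwCompl

open Pool.Agent.Q103.PF

/-- the action of `G × G` on two copies of `F` -/
def act1 {F G : Type} [Group F] [Group G] (ρ : G →* F) : G × G →* Equiv.Perm (F × Bool) where
  toFun p := ⟨fun z => ((if z.2 then ρ p.1 else ρ p.2) * z.1, z.2),
    fun z => ((if z.2 then ρ p.1 else ρ p.2)⁻¹ * z.1, z.2),
    fun z => by rcases z with ⟨x, b⟩; cases b <;> simp,
    fun z => by rcases z with ⟨x, b⟩; cases b <;> simp⟩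
  map_one' := by
    ext z
    · rcases z with ⟨x, b⟩
      cases b <;> simp
    · rfl
  map_mul' p q := by
    ext z
    · rcases z with ⟨x, b⟩
      cases b <;> simp [mul_assoc]
    · rfl

/-- the swap -/
def sw (F : Type) : Equiv.Perm (F × Bool) :=
  ⟨fun z => (z.1, !z.2), fun z => (z.1, !z.2), fun z => by simp, fun z => by simp⟩

theorem sw_sq (F : Type) : sw F * sw F = 1 := by
  ext z
  · rfl
  · simp [sw, Equiv.Perm.mul_apply]

theorem compat1 {F G : Type} [Group F] [Group G] (ρ : G →* F) (p : G × G) :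
    act1 ρ (p.2, p.1) = sw F * act1 ρ p * (sw F)⁻¹ := by
  ext z
  · rcases z with ⟨x, b⟩
    have : (sw F)⁻¹ = sw F := inv_eq_of_mul_eq_one_left (sw_sq F)
    rw [this]
    cases b <;> simp [sw, act1, Equiv.Perm.mul_apply]
  · rcases z with ⟨x, b⟩
    have : (sw F)⁻¹ = sw F := inv_eq_of_mul_eq_one_left (sw_sq F)
    rw [this]
    cases b <;> simp [sw, act1, Equiv.Perm.mul_apply]

theorem prodComm_sq (G : Type) [Group G] :
    ((MulEquiv.prodComm : G × G ≃* G × G) : MulAut (G × G)) *
      ((MulEquiv.prodComm : G × G ≃* G × G) : MulAut (G × G)) = 1 := by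
  ext z <;> rfl

/-- the action of `Sw G` on two copies of `F` -/
def Act {F G : Type} [Group F] [Group G] (ρ : G →* F) : Sw G →* Equiv.Perm (F × Bool) :=
  SemidirectProduct.lift (act1 ρ) (zpowersHom _ (sw F)) (by
    intro n
    have h1 : ∀ k : ℤ, (sw F) ^ (2 * k) = 1 := by
      intro k
      rw [zpow_mul, zpow_ofNat, pow_two, sw_sq, one_zpow]
    have h2 : ∀ k : ℤ, ((MulEquiv.prodComm : G × G ≃* G × G) : MulAut (G × G)) ^ (2 * k) = 1 := by
      intro k
      rw [zpow_mul, zpow_ofNat, pow_two, prodComm_sq, one_zpow]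
    ext1 p
    obtain ⟨k, hk⟩ : ∃ k : ℤ, n.toAdd = k := ⟨_, rfl⟩
    have e1 : (swapHom G) n = ((MulEquiv.prodComm : G × G ≃* G × G) : MulAut (G × G)) ^ k := by
      rw [← hk]
      exact zpowersHom_apply _ _ _
    have e2 : (zpowersHom _ (sw F)) n = (sw F) ^ k := by
      rw [← hk]
      exact zpowersHom_apply _ _ _
    rw [MonoidHom.comp_apply, MonoidHom.comp_apply, e1, e2]
    rcases Int.even_or_odd' k with ⟨c, rfl | rfl⟩
    · rw [h1, h2]
      simp
    · rw [zpow_add, zpow_add, h1, h2, one_mul, one_mul, zpow_one, zpow_one]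
      exact compat1 ρ p)

theorem main : Pool.Agent.Q103.PF.TaskSwCompl := by
  intro F G _ _ _ d
  haveI hfq : ∀ N : Idx (Sw G), Finite (Sw G ⧸ N.1) := fun N => by
    haveI := N.2.2
    infer_instance
  -- the homomorphism to the quotients
  let q : ∀ N : Idx (Sw G), G →* Sw G ⧸ N.1 := fun N =>
    (QuotientGroup.mk' N.1).comp (SemidirectProduct.inl.comp (MonoidHom.inl G G))
  have hq : ∀ (N : Idx (Sw G)) (f f' : F), q N (d.θ (f * f')) = q N (d.θ f) * q N (d.θ f') :=
    fun N f f' => d.kill _ (q N) f f'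
  let ι : F →* Compl (Sw G) := MonoidHom.mk' (fun f => ⟨fun N => q N (d.θ f), fun M N h => rfl⟩)
    (by
      intro f f'
      apply Subtype.ext
      funext N
      exact hq N f f')
  let N0 : Idx (Sw G) := ⟨(Act d.ρ).ker, inferInstance, Subgroup.finiteIndex_ker _⟩
  have hcomp : ∀ x y : Sw G, (QuotientGroup.mk x : Sw G ⧸ N0.1) = QuotientGroup.mk y →
      Act d.ρ x = Act d.ρ y := by
    intro x y h
    rw [QuotientGroup.eq] at h
    have h1 : Act d.ρ (x⁻¹ * y) = 1 := h
    rw [map_mul, map_inv] at h1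
    exact (inv_mul_eq_one.1 h1)
  have hinl : ∀ a b : G, Act d.ρ (SemidirectProduct.inl (a, b)) = act1 d.ρ (a, b) := by
    intro a b
    exact SemidirectProduct.lift_inl _ _ _ _
  have hinj : Function.Injective ι := by
    rw [injective_iff_map_eq_one]
    intro f hf
    have h1 : (ι f).1 N0 = (1 : Compl (Sw G)).1 N0 := by rw [hf]
    have h2 := hcomp (SemidirectProduct.inl (d.θ f, 1)) 1 h1
    rw [hinl, map_one] at h2
    have h3 := congrArg (fun g : Equiv.Perm (F × Bool) => (g (1, true)).1) h2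
    simpa [act1, d.sec] using h3
  refine ⟨ι.range, ?_, ⟨MonoidHom.ofInjective hinj⟩, ?_⟩
  · rw [MonoidHom.coe_range]
    exact Set.finite_range ι
  · intro x hx
    obtain ⟨f, hf⟩ := hx 1
    have hx1 : x = ι f := by
      rw [hf]
      simp
    obtain ⟨f', hf'⟩ := hx (SemidirectProduct.inr (Multiplicative.ofAdd 1))
    rw [hx1] at hf'
    have h1 : (ι f').1 N0 = (can (Sw G) (SemidirectProduct.inr (Multiplicative.ofAdd 1)) * ι f *
        (can (Sw G) (SemidirectProduct.inr (Multiplicative.ofAdd 1)))⁻¹).1 N0 := by rw [hf']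
    have h2 := hcomp (SemidirectProduct.inl (d.θ f', 1))
      (SemidirectProduct.inr (Multiplicative.ofAdd 1) * SemidirectProduct.inl (d.θ f, 1) *
        (SemidirectProduct.inr (Multiplicative.ofAdd 1))⁻¹) h1
    rw [map_mul, map_mul, map_inv, hinl, hinl] at h2
    have hr : Act d.ρ (SemidirectProduct.inr (Multiplicative.ofAdd 1)) = sw F := by
      refine (SemidirectProduct.lift_inr _ _ _ _).trans ?_
      simp [zpowersHom_apply]
    rw [hr] at h2
    have hsi : (sw F)⁻¹ = sw F := inv_eq_of_mul_eq_one_left (sw_sq F)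
    rw [hsi] at h2
    have h3 := congrArg (fun g : Equiv.Perm (F × Bool) => (g (1, false)).1) h2
    have h4 : f = 1 := by
      have := h3.symm
      simpa [act1, sw, Equiv.Perm.mul_apply, d.sec] using this
    rw [hx1, h4, map_one]

end Pool.Agent.Q103.PF.TaskSwCompl
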