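import Pool.Agent.Q103.PF.Stmts

set_option autoImplicit false

namespace Pool.Agent.Q103.PF.TaskSwFG

open Pool.Agent.Q103.PF

theorem fgProd (G H : Type) [Group G] [Group H] (hG : Group.FG G) (hH : Group.FG H) :
    Group.FG (G × H) := by
  obtain ⟨S, hS, hSf⟩ := Group.fg_iff.1 hG
  obtain ⟨T, hT, hTf⟩ := Group.fg_iff.1 hH
  refine Group.fg_iff.2 ⟨MonoidHom.inl G H '' S ∪ MonoidHom.inr G H '' T, ?_,
    (hSf.image _).union (hTf.image _)⟩
  rw [Subgroup.closure_union, ← MonoidHom.map_closure, ← MonoidHom.map_closure, hS, hT, eq_top_iff]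
  intro x _
  have hx : x = MonoidHom.inl G H x.1 * MonoidHom.inr G H x.2 := by
    ext <;> simp
  rw [hx]
  exact Subgroup.mul_mem_sup ⟨x.1, Subgroup.mem_top _, rfl⟩ ⟨x.2, Subgroup.mem_top _, rfl⟩

theorem fgInt : Group.FG (Multiplicative ℤ) := by
  refine Group.fg_iff.2 ⟨{Multiplicative.ofAdd 1}, ?_, Set.finite_singleton _⟩
  rw [← Subgroup.zpowers_eq_closure, eq_top_iff]
  intro x _
  rw [Subgroup.mem_zpowers_iff]
  refine ⟨Multiplicative.toAdd x, ?_⟩
  rw [← ofAdd_zsmul]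
  simp

theorem main : Pool.Agent.Q103.PF.TaskSwFG := by
  intro G _ hG
  obtain ⟨S, hS, hSf⟩ := Group.fg_iff.1 (fgProd G G hG hG)
  obtain ⟨T, hT, hTf⟩ := Group.fg_iff.1 fgInt
  refine Group.fg_iff.2 ⟨(SemidirectProduct.inl : G × G →* Sw G) '' S ∪
    (SemidirectProduct.inr : Multiplicative ℤ →* Sw G) '' T, ?_,
    (hSf.image _).union (hTf.image _)⟩
  rw [Subgroup.closure_union, ← MonoidHom.map_closure, ← MonoidHom.map_closure, hS, hT, eq_top_iff]
  intro x _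
  rw [← SemidirectProduct.inl_left_mul_inr_right x]
  exact Subgroup.mul_mem_sup ⟨x.left, Subgroup.mem_top _, rfl⟩ ⟨x.right, Subgroup.mem_top _, rfl⟩

end Pool.Agent.Q103.PF.TaskSwFG
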