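import Pool.Agent.Q103.PF.Stmts

set_option autoImplicit false

namespace Pool.Agent.Q103.PF.TaskSwTF

open Pool.Agent.Q103.PF

theorem main : Pool.Agent.Q103.PF.TaskSwTF := by
  intro G _ hG g n hn hgn
  have h1 : (SemidirectProduct.rightHom g) ^ n = 1 := by
    rw [← map_pow, hgn, map_one]
  have h2 : g.right = 1 := by
    have h3 : g.right ^ n = 1 := h1
    have h4 : (n : ℤ) * Multiplicative.toAdd g.right = 0 := by
      have := congrArg Multiplicative.toAdd h3
      rw [toAdd_pow, toAdd_one, nsmul_eq_mul] at this
      exact this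
    rcases mul_eq_zero.mp h4 with h | h
    · exact absurd h (by exact_mod_cast hn.ne')
    · exact Multiplicative.toAdd.injective h
  have h5 : g = SemidirectProduct.inl g.left := by
    ext
    · simp
    · simp
    · simp [h2]
  rw [h5, ← map_pow] at hgn
  have h6 : g.left ^ n = 1 := SemidirectProduct.inl_injective (hgn.trans (map_one _).symm)
  have h7 : g.left.1 ^ n = 1 := congrArg Prod.fst h6
  have h8 : g.left.2 ^ n = 1 := congrArg Prod.snd h6
  have h9 : g.left = 1 := Prod.ext (hG _ n hn h7) (hG _ n hn h8)
  rw [h5, h9, map_one]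

end Pool.Agent.Q103.PF.TaskSwTF
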