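import Pool.Agent.Q103.PF.Asm
import Pool.Agent.Q103.PF.TaskE
import Pool.Agent.Q103.PF.TaskCoc
import Pool.Agent.Q103.PF.TaskGTF
import Pool.Agent.Q103.PF.TaskGFG
import Pool.Agent.Q103.PF.TaskGSolv
import Pool.Agent.Q103.PF.TaskGKill
import Pool.Agent.Q103.PF.TaskL
import Pool.Agent.Q103.PF.TaskFinExt
import Pool.Agent.Q103.PF.TaskSwFG
import Pool.Agent.Q103.PF.TaskSwTF
import Pool.Agent.Q103.PF.TaskSwAm
import Pool.Agent.Q103.PF.TaskSwCompl

set_option autoImplicit false

namespace QP

/-- the normal subgroups of finite index -/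
def Ix (G : Type) [Group G] : Type := {N : Subgroup G // N.Normal ∧ N.FiniteIndex}

/-- the subgroup -/
def sb {G : Type} [Group G] (N : Ix G) : Subgroup G := N.1

instance ns {G : Type} [Group G] (N : Ix G) : (sb N).Normal := N.2.1

/-- the finite quotient -/
def Qt {G : Type} [Group G] (N : Ix G) : Type := G ⧸ sb N

instance gq {G : Type} [Group G] (N : Ix G) : Group (Qt N) := QuotientGroup.Quotient.group (sb N)

/-- the map to the quotient -/
def mk {G : Type} [Group G] (N : Ix G) : G →* Qt N := QuotientGroup.mk' (sb N)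

/-- the map between two quotients -/
def tr {G : Type} [Group G] (M N : Ix G) (h : sb M ≤ sb N) : Qt M →* Qt N :=
  QuotientGroup.map (sb M) (sb N) (MonoidHom.id G) (by simpa using h)

/-- the compatible families -/
def CT (G : Type) [Group G] : Type :=
  {x : (N : Ix G) → Qt N // ∀ (M N : Ix G) (h : sb M ≤ sb N), tr M N h (x M) = x N}

instance mc {G : Type} [Group G] : Mul (CT G) :=
  ⟨fun x y => ⟨fun N => x.1 N * y.1 N, fun M N h => by rw [map_mul, x.2, y.2]⟩⟩

instance oc {G : Type} [Group G] : One (CT G) :=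
  ⟨⟨fun _ => 1, fun _ _ _ => by rw [map_one]⟩⟩

instance ic {G : Type} [Group G] : Inv (CT G) :=
  ⟨fun x => ⟨fun N => (x.1 N)⁻¹, fun M N h => by rw [map_inv, x.2]⟩⟩

instance gc {G : Type} [Group G] : Group (CT G) := Group.ofLeftAxioms
  (fun _ _ _ => Subtype.ext (funext fun _ => mul_assoc _ _ _))
  (fun _ => Subtype.ext (funext fun _ => one_mul _))
  (fun _ => Subtype.ext (funext fun _ => inv_mul_cancel _))

/-- the topology: the coarsest one for which the maps to the discrete finite quotients are continuous -/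
instance tc {G : Type} [Group G] : TopologicalSpace (CT G) :=
  ⨅ N : Ix G, TopologicalSpace.induced (fun x : CT G => x.1 N) ⊥

/-- the canonical map -/
def cn {G : Type} [Group G] : G →* CT G where
  toFun g := ⟨fun N => mk N g, fun _ _ _ => rfl⟩
  map_one' := rfl
  map_mul' _ _ := rfl

/-- conjugation -/
def cj {G : Type} [Group G] (k : G) (x : CT G) : CT G := cn k * x * (cn k)⁻¹

/-- trivial rational core -/
def TrivialCore {G : Type} [Group G] (D : Set (CT G)) : Prop :=
  ∀ x : CT G, (∀ k : G, cj k x ∈ D) → x = 1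

/-- torsion-free -/
def TF (G : Type) [Group G] : Prop := ∀ (g : G) (n : ℕ), 0 < n → g ^ n = 1 → g = 1

/-- the group `G` and the closed subgroup, the image of `φ` -/
def Good (H G : Type) [Group H] [TopologicalSpace H] [Group G] : Prop :=
  Group.FG G ∧ TF G ∧ Pool.Agent.Helper240.Amen.Amenable G ∧
    ∃ φ : H →* CT G, Topology.IsClosedEmbedding φ ∧ TrivialCore (Set.range φ)

/-- the condition of Q1 -/
def Occurs (H : Type) [Group H] [TopologicalSpace H] : Prop := ∃ (G : Type) (_ : Group G), Good H G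

theorem t2 (G : Type) [Group G] : T2Space (CT G) := by
  refine ⟨fun x y hxy => ?_⟩
  have hN : ∃ N, x.1 N ≠ y.1 N := by
    by_contra h
    push Not at h
    exact hxy (Subtype.ext (funext h))
  obtain ⟨N, hN⟩ := hN
  have ho : ∀ s : Set (Qt N), IsOpen ((fun x : CT G => x.1 N) ⁻¹' s) := by
    intro s
    have h1 : @IsOpen _ (TopologicalSpace.induced (fun x : CT G => x.1 N) ⊥)
        ((fun x : CT G => x.1 N) ⁻¹' s) := ⟨s, trivial, rfl⟩
    exact (iInf_le (fun N : Ix G => TopologicalSpace.induced (fun x : CT G => x.1 N) ⊥) N) _ h1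
  refine ⟨_, _, ho {x.1 N}, ho {y.1 N}, rfl, rfl, ?_⟩
  rw [Set.disjoint_left]
  intro z h1 h2
  exact hN ((show z.1 N = x.1 N from h1).symm.trans h2)

open Pool.Agent.Q103.PF in
theorem main (H : Type) [Group H] [Finite H] [TopologicalSpace H] [DiscreteTopology H] :
    QP.Occurs H := by
  obtain ⟨G, _, ⟨D⟩⟩ := datG TaskE.main TaskCoc.main TaskGTF.main TaskGFG.main TaskGSolv.main
    TaskGKill.main TaskL.main H
  obtain ⟨K, -, ⟨φ⟩, hK2⟩ := TaskSwCompl.main H G D
  haveI := t2 (Sw G)
  let ψ : H →* CT (Sw G) :=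
    { toFun := fun h => ⟨(φ h).1.1, (φ h).1.2⟩
      map_one' := by rw [map_one]; rfl
      map_mul' := fun a b => by rw [map_mul]; rfl }
  have hinj : Function.Injective ψ := by
    intro a b hab
    apply φ.injective
    apply Subtype.ext
    apply Subtype.ext
    exact congrArg Subtype.val hab
  refine ⟨Sw G, inferInstance, TaskSwFG.main G D.fg, TaskSwTF.main G D.tf,
    TaskSwAm.main TaskFinExt.main H G D, ψ, ?_, ?_⟩
  · refine Topology.IsClosedEmbedding.of_continuous_injective_isClosedMap
      continuous_of_discreteTopology hinj ?_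
    intro s _
    exact (Set.toFinite s |>.image ψ).isClosed
  · intro x hx
    have h1 : (⟨x.1, x.2⟩ : Pool.Agent.Q103.PF.Compl (Sw G)) = 1 := by
      apply hK2
      intro k
      obtain ⟨h, hh⟩ := hx k
      have h2 : (φ h).1 = can (Sw G) k * ⟨x.1, x.2⟩ * (can (Sw G) k)⁻¹ := by
        apply Subtype.ext
        exact congrArg Subtype.val hh
      rw [← h2]
      exact (φ h).2
    apply Subtype.ext
    exact congrArg Subtype.val h1

end QP
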