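import Pool.Agent.Q103.PF.Stmts

/-! Blueprint for MP_ccbc6b_al, part 2: the group of a cocycle. -/

set_option autoImplicit false

namespace Pool.Agent.Q103.PF
open Pool.Agent.Helper240.Amen

/-- a cocycle -/
structure Coc (F I : Type) [Group F] [MulAction F I] (m : ℕ) where
  κ : F → I → ZMod m
  coc : ∀ f f' i, κ (f * f') i = κ f (f' • i) + κ f' i

section
variable {F I : Type} [Group F] [MulAction F I] {m : ℕ}

theorem Coc.one (C : Coc F I m) (i : I) : C.κ 1 i = 0 := by
  have h := C.coc 1 1 i
  rw [one_mul, one_smul] at h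
  simpa using h

theorem Coc.inv (C : Coc F I m) (f : F) (i : I) : C.κ f⁻¹ i = - C.κ f (f⁻¹ • i) := by
  have h := C.coc f f⁻¹ i
  rw [mul_inv_cancel, C.one] at h
  exact (neg_eq_of_add_eq_zero_right h.symm).symm

/-- the group of a cocycle: pairs `(f, g)` with `π (g i) = κ f i` -/
@[ext] structure GG (C : Coc F I m) {L : Type} [Group L] (π : L →* Multiplicative (ZMod m)) where
  f : F
  g : I → L
  h : ∀ i, π (g i) = Multiplicative.ofAdd (C.κ f i)

variable (C : Coc F I m) {L : Type} [Group L] (π : L →* Multiplicative (ZMod m))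

instance : Mul (GG C π) := ⟨fun a b => ⟨a.f * b.f, fun i => a.g (b.f • i) * b.g i, fun i => by
  rw [map_mul, a.h, b.h, C.coc, ofAdd_add]⟩⟩

instance : One (GG C π) := ⟨⟨1, fun _ => 1, fun i => by rw [map_one, C.one, ofAdd_zero]⟩⟩

instance : Inv (GG C π) := ⟨fun a => ⟨a.f⁻¹, fun i => (a.g (a.f⁻¹ • i))⁻¹, fun i => by
  rw [map_inv, a.h, C.inv, ofAdd_neg]⟩⟩

instance : Group (GG C π) := Group.ofLeftAxioms
  (fun a b c => by
    apply GG.ext
    · exact mul_assoc _ _ _
    · funext i
      show (a.g (b.f • (c.f • i)) * b.g (c.f • i)) * c.g i =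
        a.g ((b.f * c.f) • i) * (b.g (c.f • i) * c.g i)
      rw [mul_smul, mul_assoc])
  (fun a => by
    apply GG.ext
    · exact one_mul _
    · funext i
      exact one_mul _)
  (fun a => by
    apply GG.ext
    · exact inv_mul_cancel _
    · funext i
      show (a.g (a.f⁻¹ • (a.f • i)))⁻¹ * a.g i = 1
      rw [inv_smul_smul, inv_mul_cancel])

/-- the projection -/
def rho : GG C π →* F where
  toFun a := a.f
  map_one' := rfl
  map_mul' _ _ := rfl

end

/-- G1. From `TaskE` (`e c` for `c ≠ 1`, `d c`), `I = {c : F // c ≠ 1} × ...`: `I = Σ c, F ⧸ zpowers c`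
(`F` acts on the left), `κ f (c, x) = e c (f * x.out) - e c x.out`; by `e (u * c) = e u + d` this is
`e c (f * u) - e c u` for every representative `u`. Place for `f ≠ 1`: `(f, [1])`, `κ = d f ≠ 0`. -/
def TaskCoc : Prop := TaskE → ∀ (F : Type) [Group F] [Finite F],
  ∃ (I : Type) (_ : Finite I) (_ : MulAction F I) (C : Coc F I (Nat.card F)),
    ∀ f : F, f ≠ 1 → ∃ i : I, f • i = i ∧ C.κ f i ≠ 0

/-- G2. if `a ^ n = 1`, `a.f ≠ 1`, look at the place `i` fixed by `a.f`: `(a ^ n).g i = (a.g i) ^ n`. -/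
def TaskGTF : Prop := ∀ (F I L : Type) [Group F] [MulAction F I] [Group L] (m : ℕ) (C : Coc F I m)
  (π : L →* Multiplicative (ZMod m)), TF L →
  (∀ f : F, f ≠ 1 → ∃ i : I, f • i = i ∧ C.κ f i ≠ 0) → TF (GG C π)

/-- G3. The kernel of `rho` is isomorphic to the functions `I → ker π`; `ker π` is finitely generated (finite index
in `L`), a finite product of finitely generated groups is finitely generated, and an extension of a finitely
generated group by a finite group also. -/
def TaskGFG : Prop := ∀ (F I L : Type) [Group F] [Finite F] [Finite I] [MulAction F I] [Group L] (m : ℕ)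
  (C : Coc F I m) (π : L →* Multiplicative (ZMod m)), 0 < m → Group.FG L → Group.FG (GG C π)

/-- G4. The kernel embeds in `I → L`. -/
def TaskGSolv : Prop := ∀ (F I L : Type) [Group F] [MulAction F I] [Group L] (m : ℕ)
  (C : Coc F I m) (π : L →* Multiplicative (ZMod m)), Group.IsSolvable L →
  Group.IsSolvable (rho C π).ker

/-- G5. `θ f = (f, i ↦ w ^ (κ f i).val)`; `θ (f f')⁻¹ θ f θ f'` has the components `w ^ (m k_i)`, so it is a product over
`i` of elements `(w ^ m) ^ k_i` at the place `i`, which are the images of `w ^ m ∈ ker π` under the homomorphism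
`ker π → GG`, so they are killed by `D.kill`. -/
def TaskGKill : Prop := ∀ (F I L : Type) [Group F] [Finite I] [MulAction F I] [Group L] (m : ℕ)
  (C : Coc F I m) (D : Dat m L), 0 < m → ∃ θ : F → GG C D.π, (∀ f, (θ f).f = f) ∧
  ∀ (Q : Type) [Group Q] [Finite Q] (q : GG C D.π →* Q) (f f' : F),
    q (θ (f * f')) = q (θ f) * q (θ f')

end Pool.Agent.Q103.PF
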