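import Pool.Agent.Q103.PF.Stmts2

set_option autoImplicit false

namespace Pool.Agent.Q103.PF.TaskCoc299

open Pool.Agent.Q103.PF

section
variable {F : Type} [Group F] {m : ℕ} {c : F} {e : F → ZMod m} {d : ZMod m}

theorem e_zpow (he : ∀ u, e (u * c) = e u + d) (u : F) (k : ℤ) : e (u * c ^ k) = e u + k * d := by
  induction k using Int.induction_on with
  | zero => simp
  | succ k ih =>
    rw [zpow_add_one, ← mul_assoc, he, ih]
    push_cast
    ring
  | pred k ih =>
    have h := he (u * c ^ (-(k : ℤ) - 1))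
    rw [mul_assoc, ← zpow_add_one, sub_add_cancel, ih] at h
    have h2 : e (u * c ^ (-(k : ℤ) - 1)) = e u + ((-(k : ℤ) : ℤ) : ZMod m) * d - d := by
      rw [h]; ring
    rw [h2]
    push_cast
    ring

theorem e_rep (he : ∀ u, e (u * c) = e u + d) (f u v : F)
    (h : (u : F ⧸ Subgroup.zpowers c) = (v : F ⧸ Subgroup.zpowers c)) :
    e (f * u) - e u = e (f * v) - e v := by
  rw [QuotientGroup.eq] at h
  obtain ⟨k, hk⟩ := Subgroup.mem_zpowers_iff.1 h
  have hv : v = u * c ^ k := by rw [hk]; group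
  rw [hv, ← mul_assoc, e_zpow he, e_zpow he]
  ring

end

theorem main : Pool.Agent.Q103.PF.TaskCoc := by
  classical
  intro hE F _ _
  choose! e d hd he using fun c : F => hE F c
  let I := Σ c : {c : F // c ≠ 1}, F ⧸ Subgroup.zpowers c.1
  haveI : Finite I := inferInstance
  letI act : MulAction F I :=
    { smul := fun f i => ⟨i.1, f • i.2⟩
      one_smul := fun i => by
        obtain ⟨c, x⟩ := i
        show (⟨c, (1 : F) • x⟩ : I) = ⟨c, x⟩
        rw [one_smul]
      mul_smul := fun f g i => by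
        obtain ⟨c, x⟩ := i
        show (⟨c, (f * g) • x⟩ : I) = ⟨c, f • g • x⟩
        rw [mul_smul] }
  let κ : F → I → ZMod (Nat.card F) := fun f i => e i.1.1 (f * i.2.out) - e i.1.1 i.2.out
  have coc : ∀ f f' i, κ (f * f') i = κ f (f' • i) + κ f' i := by
    intro f f' i
    obtain ⟨c, x⟩ := i
    show e c.1 (f * f' * x.out) - e c.1 x.out =
      (e c.1 (f * (f' • x).out) - e c.1 (f' • x).out) + (e c.1 (f' * x.out) - e c.1 x.out)
    have h1 : (((f' • x).out : F) : F ⧸ Subgroup.zpowers c.1) =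
        ((f' * x.out : F) : F ⧸ Subgroup.zpowers c.1) := by
      rw [QuotientGroup.out_eq']
      conv_lhs => rw [← QuotientGroup.out_eq' x]
      rfl
    rw [e_rep (he c.1 c.2) f _ _ h1, mul_assoc]
    ring
  refine ⟨I, inferInstance, act, ⟨κ, coc⟩, fun f hf => ?_⟩
  refine ⟨⟨⟨f, hf⟩, ((1 : F) : F ⧸ Subgroup.zpowers f)⟩, ?_, ?_⟩
  · show (⟨⟨f, hf⟩, f • ((1 : F) : F ⧸ Subgroup.zpowers f)⟩ : I) = _
    congr 1
    show ((f * 1 : F) : F ⧸ Subgroup.zpowers f) = ((1 : F) : F ⧸ Subgroup.zpowers f)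
    rw [QuotientGroup.eq]
    simp
  · show e f (f * ((1 : F) : F ⧸ Subgroup.zpowers f).out) -
      e f ((1 : F) : F ⧸ Subgroup.zpowers f).out ≠ 0
    rw [e_rep (he f hf) f _ 1 (QuotientGroup.out_eq' _)]
    have h2 := he f hf 1
    rw [one_mul] at h2
    rw [mul_one, h2]
    simpa using hd f hf

end Pool.Agent.Q103.PF.TaskCoc299
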